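import Pool.Agent.Q250.Braid.Transfer

set_option autoImplicit false

namespace Pool.Agent.Results.MP_e319d1_co.SimplyLacedMedian

open Pool.Agent.Q250.Braid

variable {B : Type*}

/-- Simply-laced Coxeter matrices. -/
def SimplyLaced (M : CoxeterMatrix B) : Prop := ∀ s t : B, s ≠ t → M s t = 2 ∨ M s t = 3

/-- A braid move replaces a factor `s t s` by `t s t`, where `m(s,t) = 3`. -/
def BraidMove (M : CoxeterMatrix B) (β γ : List B) : Prop :=
  ∃ (u v : List B) (s t : B), M s t = 3 ∧ β = u ++ [s, t, s] ++ v ∧ γ = u ++ [t, s, t] ++ v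

/-- The braid class of a word. -/
def BraidClass (M : CoxeterMatrix B) (α : List B) : Type _ :=
  {β : List B // Relation.ReflTransGen (BraidMove M) α β}

/-- The braid graph of a word. -/
def braidGraph (M : CoxeterMatrix B) (α : List B) : SimpleGraph (BraidClass M α) where
  Adj β γ := BraidMove M β.1 γ.1
  symm := ⟨fun _ _ h => Br.symm (fun _ _ h => E3.symm h) h⟩
  loopless := ⟨fun _ h => Br.ne E3_irrefl h rfl⟩

/-- Median graphs: connected, and for all `u, v, w` exactly one vertex lies on shortest paths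
between each two of them. -/
def IsMedianGraph {V : Type*} (G : SimpleGraph V) : Prop :=
  G.Connected ∧ ∀ u v w : V, ∃! m : V,
    G.dist u m + G.dist m v = G.dist u v ∧
    G.dist v m + G.dist m w = G.dist v w ∧
    G.dist u m + G.dist m w = G.dist u w

/-- **Main result.** For every simply-laced Coxeter system and every reduced expression `α`, the
braid graph of `α` is a median graph. -/
theorem result {B W : Type*} [Group W] (M : CoxeterMatrix B) (cs : CoxeterSystem M W)
    (_hM : SimplyLaced M) (α : List B) (hα : cs.IsReduced α) :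
    IsMedianGraph (braidGraph M α) := by
  classical
  have hinj : Function.Injective (List.map (Subtype.val : {b // b ∈ α} → B)) :=
    List.map_injective_iff.mpr Subtype.val_injective
  have hP := PP_all (cs := (rm M α).toCoxeterSystem) (rm_threeInf α) _
      ((rm M α).toCoxeterSystem.wordProd α.attach) le_rfl
  have hcl := fun β : BraidClass M α => (class_iff hα β.1).mp β.2
  choose pre hpre hpre2 using hcl
  have hD : ∀ β γ : BraidClass M α, (braidGraph M α).Reachable β γ ∧
      (braidGraph M α).dist β γ = (Gr (rm M α)).dist (pre β) (pre γ) := fun β γ =>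
    dist_transfer hα (braidGraph M α) (fun _ _ => Iff.rfl) (pre β) (pre γ) β γ (hpre2 β) (hpre2 γ)
  have hsurj : ∀ x ∈ RW (rm M α).toCoxeterSystem
      ((rm M α).toCoxeterSystem.wordProd α.attach), ∃ β : BraidClass M α, pre β = x := by
    intro x hx
    let β : BraidClass M α := ⟨x.map Subtype.val, (class_iff hα _).mpr ⟨x, hx, rfl⟩⟩
    exact ⟨β, hinj (hpre2 β).symm⟩
  have hpreinj : ∀ β γ : BraidClass M α, pre β = pre γ → β = γ := by
    intro β γ h
    apply Subtype.ext
    rw [hpre2 β, hpre2 γ, h]
  have : Nonempty (BraidClass M α) := ⟨⟨α, Relation.ReflTransGen.refl⟩⟩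
  refine ⟨⟨fun β γ => (hD β γ).1⟩, ?_⟩
  · intro u v w
    obtain ⟨m, ⟨hm, h1, h2, h3⟩, huniq⟩ := hP.med _ (hpre u) _ (hpre v) _ (hpre w)
    obtain ⟨n, rfl⟩ := hsurj m hm
    simp only [(hD _ _).2]
    refine ⟨n, ⟨h1, h2, h3⟩, ?_⟩
    rintro n' ⟨k1, k2, k3⟩
    exact hpreinj _ _ (huniq (pre n') ⟨hpre n', k1, k2, k3⟩)

end Pool.Agent.Results.MP_e319d1_co.SimplyLacedMedian
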